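import Mathlib

/-!
# Mixed identities and multiply transitive actions

If a group `G` satisfies a mixed identity of length `n` and acts faithfully and `max n 3`-transitively
on an infinite set, then the action is highly transitive.
-/

namespace Pool.Agent.MixedId

open MulAction
open scoped Pointwise

section Words

variable {G : Type*} [Group G]

/-- value of the letter `x` or `x⁻¹` -/
def letter (s : Bool) (x : G) : G := if s then x else x⁻¹

/-- value of `x ^ s₁ * a₁ * x ^ s₂ * a₂ * ⋯` at `x` -/
def evalList : List (Bool × G) → G → G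
  | [], _ => 1
  | (s, a) :: L, x => letter s x * (a * evalList L x)

/-- no cancellation is possible: if the coefficient between two letters is trivial, then the two
letters are equal -/
def Reduced (L : List (Bool × G)) : Prop :=
  L.IsChain fun p q => p.2 = 1 → p.1 = q.1

end Words

section Path

variable {G X : Type*} [Group G] [MulAction G X]

/-- sources and targets of the constraints are pairwise distinct -/
structure Inj (D : List (X × X)) : Prop where
  src : (D.map Prod.fst).Nodup
  tgt : (D.map Prod.snd).Nodup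

/-- `x` satisfies the constraints -/
def Sat (D : List (X × X)) (x : G) : Prop := ∀ p ∈ D, x • p.1 = p.2

/-- the constraint which makes the letter `s` move `q` to `r` -/
def con (s : Bool) (q r : X) : X × X := if s then (q, r) else (r, q)

lemma letter_smul {s : Bool} {q r : X} {x : G} (h : x • (con s q r).1 = (con s q r).2) :
    letter s x • q = r := by
  cases s
  · simp only [con, letter] at *
    simpa [inv_smul_eq_iff] using h.symm
  · simpa [con, letter] using h

/-- the state reached before the outermost letter is applied -/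
structure State (s : Bool) (a : G) (L : List (Bool × G)) (p q : X) (D : List (X × X))
    (F : Finset X) : Prop where
  inj : Inj D
  len : D.length = L.length
  eval : ∀ x : G, Sat D x → a • evalList L x • p = q
  hp : p ∈ F
  hq : q ∈ F
  hF1 : ∀ c ∈ D, c.1 ∈ F
  hF2 : ∀ c ∈ D, c.2 ∈ F
  fresh : if s then ∀ c ∈ D, c.1 ≠ q else ∀ c ∈ D, c.2 ≠ q

lemma State.inj_cons {s : Bool} {a : G} {L : List (Bool × G)} {p q : X} {D : List (X × X)}
    {F : Finset X} (h : State s a L p q D F) {r : X} (hr : r ∉ F) : Inj (con s q r :: D) := by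
  have hr1 : r ∉ D.map Prod.fst := by
    intro h1
    obtain ⟨c, hc, rfl⟩ := List.mem_map.1 h1
    exact hr (h.hF1 c hc)
  have hr2 : r ∉ D.map Prod.snd := by
    intro h1
    obtain ⟨c, hc, rfl⟩ := List.mem_map.1 h1
    exact hr (h.hF2 c hc)
  have hf := h.fresh
  cases s
  · simp only [Bool.false_eq_true, if_false] at hf
    have hq2 : q ∉ D.map Prod.snd := by
      intro h1
      obtain ⟨c, hc, hcq⟩ := List.mem_map.1 h1
      exact hf c hc hcq
    refine ⟨?_, ?_⟩
    · simpa [con] using ⟨by simpa using hr1, h.inj.src⟩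
    · simpa [con] using ⟨by simpa using hq2, h.inj.tgt⟩
  · simp only [if_true] at hf
    have hq1 : q ∉ D.map Prod.fst := by
      intro h1
      obtain ⟨c, hc, hcq⟩ := List.mem_map.1 h1
      exact hf c hc hcq
    refine ⟨?_, ?_⟩
    · simpa [con] using ⟨by simpa using hq1, h.inj.src⟩
    · simpa [con] using ⟨by simpa using hr2, h.inj.tgt⟩

lemma exists_state [Infinite X] (hsupp : ∀ a : G, a ≠ 1 → {x : X | a • x ≠ x}.Infinite) :
    ∀ (L : List (Bool × G)) (s : Bool) (a : G), Reduced ((s, a) :: L) →
      ∃ (p q : X) (D : List (X × X)) (F : Finset X), State s a L p q D F := by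
  classical
  intro L
  induction L with
  | nil =>
    intro s a _
    obtain ⟨p⟩ : Nonempty X := inferInstance
    refine ⟨p, a • p, [], {p, a • p}, ?_⟩
    refine ⟨⟨by simp, by simp⟩, rfl, ?_, by simp, by simp, by simp, by simp, ?_⟩
    · intro x _
      simp [evalList]
    · cases s <;> simp
  | cons tb L ih =>
    obtain ⟨t, b⟩ := tb
    intro s a hred
    have hred' : Reduced ((t, b) :: L) := by
      unfold Reduced at hred ⊢
      exact (List.isChain_cons_cons.1 hred).2
    have hst : a = 1 → s = t := by
      unfold Reduced at hred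
      exact (List.isChain_cons_cons.1 hred).1
    obtain ⟨p, q, D, F, h⟩ := ih t b hred'
    -- choose the new point
    obtain ⟨r, hrF, hr2⟩ : ∃ r : X, r ∉ F ∧ (a ≠ 1 → a • r ≠ r ∧ a • r ∉ F) := by
      by_cases ha : a = 1
      · obtain ⟨r, hr⟩ := Infinite.exists_notMem_finset F
        exact ⟨r, hr, fun h => absurd ha h⟩
      · have hinf := hsupp a ha
        have hfin : ((F : Set X) ∪ (fun x : X => a⁻¹ • x) '' (F : Set X)).Finite :=
          F.finite_toSet.union (F.finite_toSet.image _)
        obtain ⟨r, hr1, hr2⟩ := (hinf.sdiff hfin).nonempty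
        refine ⟨r, fun h => hr2 (Or.inl h), fun _ => ⟨hr1, fun h => hr2 (Or.inr ⟨a • r, h, ?_⟩)⟩⟩
        simp
    refine ⟨p, a • r, con t q r :: D, insert r (insert (a • r) F), ?_⟩
    refine ⟨h.inj_cons hrF, by simp [h.len], ?_, ?_, ?_, ?_, ?_, ?_⟩
    · intro x hx
      have h1 : Sat D x := fun c hc => hx c (List.mem_cons_of_mem _ hc)
      have h2 := hx _ List.mem_cons_self
      have h3 := h.eval x h1
      show a • (letter t x * (b * evalList L x)) • p = a • r
      rw [mul_smul, mul_smul, h3, letter_smul h2]
    · simp [h.hp]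
    · simp
    · intro c hc
      rcases List.mem_cons.1 hc with rfl | hc
      · cases t
        · simp [con]
        · simp [con, h.hq]
      · simp [h.hF1 c hc]
    · intro c hc
      rcases List.mem_cons.1 hc with rfl | hc
      · cases t
        · simp [con, h.hq]
        · simp [con]
      · simp [h.hF2 c hc]
    · by_cases ha : a = 1
      · have hst' := hst ha
        subst hst'
        subst ha
        rw [one_smul]
        have hqr : q ≠ r := fun h' => hrF (h' ▸ h.hq)
        cases s
        · simp only [Bool.false_eq_true, if_false]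
          intro c hc
          rcases List.mem_cons.1 hc with rfl | hc
          · simpa [con] using hqr
          · exact fun h' => hrF (h' ▸ h.hF2 c hc)
        · simp only [if_true]
          intro c hc
          rcases List.mem_cons.1 hc with rfl | hc
          · simpa [con] using hqr
          · exact fun h' => hrF (h' ▸ h.hF1 c hc)
      · obtain ⟨har, harF⟩ := hr2 ha
        have hq' : q ≠ a • r := fun h' => harF (h' ▸ h.hq)
        cases s
        · simp only [Bool.false_eq_true, if_false]
          intro c hc
          rcases List.mem_cons.1 hc with rfl | hc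
          · cases t
            · simpa [con] using hq'
            · simpa [con] using har.symm
          · exact fun h' => harF (h' ▸ h.hF2 c hc)
        · simp only [if_true]
          intro c hc
          rcases List.mem_cons.1 hc with rfl | hc
          · cases t
            · simpa [con] using har.symm
            · simpa [con] using hq'
          · exact fun h' => harF (h' ▸ h.hF1 c hc)

/-- realise an injective family of constraints by multiple transitivity -/
lemma exists_sat {D : List (X × X)} (hD : Inj D)
    (ht : IsMultiplyPretransitive G X D.length) : ∃ x : G, Sat D x := by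
  let e1 : Fin D.length ↪ X := ⟨fun i => (D.get i).1, by
    intro i j hij
    have h1 := List.nodup_iff_injective_get.1 hD.src
    have h2 : (⟨i, by simp⟩ : Fin (D.map Prod.fst).length) = ⟨j, by simp⟩ := by
      apply h1
      simpa using hij
    simpa [Fin.ext_iff] using h2⟩
  let e2 : Fin D.length ↪ X := ⟨fun i => (D.get i).2, by
    intro i j hij
    have h1 := List.nodup_iff_injective_get.1 hD.tgt
    have h2 : (⟨i, by simp⟩ : Fin (D.map Prod.snd).length) = ⟨j, by simp⟩ := by
      apply h1
      simpa using hij
    simpa [Fin.ext_iff] using h2⟩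
  obtain ⟨x, hx⟩ := ht.exists_smul_eq e1 e2
  refine ⟨x, fun c hc => ?_⟩
  obtain ⟨i, rfl⟩ := List.mem_iff_get.1 hc
  exact DFunLike.congr_fun hx i

/-- a group with an `n`-transitive action in which all nontrivial elements have infinite support
satisfies no mixed identity of length at most `n` -/
lemma exists_finite_support [Infinite X] [FaithfulSMul G X] (a₀ : G) (L : List (Bool × G))
    (hne : L ≠ []) (hred : Reduced L) (hid : ∀ x : G, a₀ * evalList L x = 1)
    (ht : IsMultiplyPretransitive G X L.length) :
    ∃ a : G, a ≠ 1 ∧ {x : X | a • x ≠ x}.Finite := by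
  classical
  by_contra hcon
  push Not at hcon
  obtain ⟨⟨s, a⟩, L', rfl⟩ := List.exists_cons_of_ne_nil hne
  obtain ⟨p, q, D, F, h⟩ := exists_state (X := X) (fun a ha => hcon a ha) L' s a hred
  obtain ⟨r, hr⟩ := Infinite.exists_notMem_finset (insert (a₀⁻¹ • p) F)
  rw [Finset.mem_insert, not_or] at hr
  obtain ⟨hr1, hr2⟩ := hr
  have hD := h.inj_cons hr2
  have hlen : (con s q r :: D).length = ((s, a) :: L').length := by simp [h.len]
  rw [← hlen] at ht
  obtain ⟨x, hx⟩ := exists_sat hD ht
  have h1 : Sat D x := fun c hc => hx c (List.mem_cons_of_mem _ hc)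
  have h2 := hx _ List.mem_cons_self
  have h3 := h.eval x h1
  have h4 : (a₀ * evalList ((s, a) :: L') x) • p = a₀ • r := by
    show (a₀ * (letter s x * (a * evalList L' x))) • p = a₀ • r
    rw [mul_smul, mul_smul, mul_smul, h3, letter_smul h2]
  rw [hid x, one_smul] at h4
  exact hr1 (by rw [h4, inv_smul_smul])

end Path

section ThreeCycle

variable {G X : Type*} [Group G] [MulAction G X]

/-- the commutator of two elements whose supports meet in one point is a three-cycle -/
lemma commutator_threeCycle {g h : G} {a : X} (hga : g • a ≠ a) (hha : h • a ≠ a)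
    (hdis : ∀ x, g • x ≠ x → h • x ≠ x → x = a) :
    (g * h * g⁻¹ * h⁻¹) • a = g • a ∧ (g * h * g⁻¹ * h⁻¹) • (g • a) = h • a ∧
      (g * h * g⁻¹ * h⁻¹) • (h • a) = a ∧
      ∀ x, x ≠ a → x ≠ g • a → x ≠ h • a → (g * h * g⁻¹ * h⁻¹) • x = x := by
  -- moved points of inverses
  have key : ∀ (k : G) (x : X), k • x ≠ x → k⁻¹ • x ≠ x := by
    intro k x hx h1
    exact hx ((inv_smul_eq_iff.1 h1).symm)
  have key2 : ∀ (k : G) (x : X), k • x ≠ x → k • (k⁻¹ • x) ≠ k⁻¹ • x := by
    intro k x hx h1
    rw [smul_inv_smul] at h1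
    exact key k x hx h1.symm
  have key3 : ∀ (k : G) (x : X), k • x ≠ x → k • (k • x) ≠ k • x := by
    intro k x hx h1
    exact hx (smul_left_cancel k h1)
  have fixinv : ∀ (k : G) (x : X), k • x = x → k⁻¹ • x = x := by
    intro k x hx
    rw [inv_smul_eq_iff, hx]
  have hcomp : ∀ x : X, (g * h * g⁻¹ * h⁻¹) • x = g • h • g⁻¹ • h⁻¹ • x := by
    intro x
    simp only [mul_smul]
  refine ⟨?_, ?_, ?_, ?_⟩
  · rw [hcomp]
    have h1 : g • (h⁻¹ • a) = h⁻¹ • a := by
      by_contra h1
      exact key h a hha (hdis _ h1 (key2 h a hha))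
    rw [fixinv g _ h1, smul_inv_smul]
  · rw [hcomp]
    have h1 : h • (g • a) = g • a := by
      by_contra h1
      exact hga (hdis _ (key3 g a hga) h1)
    have h2 : g • (h • a) = h • a := by
      by_contra h2
      exact hha (hdis _ h2 (key3 h a hha))
    rw [fixinv h _ h1, inv_smul_smul, h2]
  · rw [hcomp, inv_smul_smul]
    have h1 : h • (g⁻¹ • a) = g⁻¹ • a := by
      by_contra h1
      exact key g a hga (hdis _ (key2 g a hga) h1)
    rw [h1, smul_inv_smul]
  · intro x hx1 hx2 hx3
    rw [hcomp]
    by_cases hhx : h • x = x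
    · rw [fixinv h x hhx]
      by_cases hgx : g • x = x
      · rw [fixinv g x hgx, hhx, hgx]
      · have h1 : h • (g⁻¹ • x) = g⁻¹ • x := by
          by_contra h1
          have h2 := hdis _ (key2 g x hgx) h1
          exact hx2 (by rw [← h2, smul_inv_smul])
        rw [h1, smul_inv_smul]
    · have h1 : g • (h⁻¹ • x) = h⁻¹ • x := by
        by_contra h1
        have h2 := hdis _ h1 (key2 h x hhx)
        exact hx3 (by rw [← h2, smul_inv_smul])
      rw [fixinv g _ h1, smul_inv_smul]
      by_contra h2
      exact hx1 (hdis _ h2 hhx)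

/-- In a `2`-transitive action on an infinite set, an element with nonempty finite support yields a
three-cycle. -/
lemma exists_threeCycle [Infinite X] (ht : IsMultiplyPretransitive G X 2) {g : G}
    (hfin : {x : X | g • x ≠ x}.Finite) {a : X} (ha : g • a ≠ a) :
    ∃ (c : G) (u v w : X), u ≠ v ∧ v ≠ w ∧ u ≠ w ∧ c • u = v ∧ c • v = w ∧ c • w = u ∧
      ∀ x, x ≠ u → x ≠ v → x ≠ w → c • x = x := by
  classical
  rw [is_two_pretransitive_iff] at ht
  let Y := {x : X // x ≠ a}
  let H := stabilizer G a
  let A : Finset X := hfin.toFinset.erase a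
  -- separate inside the stabiliser
  have hsep : ∃ h : G, h • a = a ∧ ∀ x ∈ A, h • x ∉ A := by
    by_contra hcon
    push Not at hcon
    let S : Finset (X × X) := (A ×ˢ A).filter fun p => ∃ h : H, (h : G) • p.1 = p.2
    have hS : ∀ p ∈ S, ∃ h : H, (h : G) • p.1 = p.2 := fun p hp => (Finset.mem_filter.1 hp).2
    choose! f hf using hS
    have hcov : ⋃ p ∈ S, f p • ((stabilizer H p.1 : Subgroup H) : Set H) = Set.univ := by
      rw [Set.eq_univ_iff_forall]
      intro h
      obtain ⟨x, hx, hhx⟩ := hcon (h : G) h.2
      have hp : (x, (h : G) • x) ∈ S := by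
        simp only [S, Finset.mem_filter, Finset.mem_product]
        exact ⟨⟨hx, hhx⟩, h, rfl⟩
      refine Set.mem_iUnion₂.2 ⟨(x, (h : G) • x), hp, ?_⟩
      rw [Set.mem_smul_set_iff_inv_smul_mem]
      show (f (x, (h : G) • x))⁻¹ • h ∈ stabilizer H x
      rw [smul_eq_mul, mem_stabilizer_iff, mul_smul, inv_smul_eq_iff]
      exact (hf _ hp).symm
    obtain ⟨p, hpS, hp⟩ := Subgroup.exists_finiteIndex_of_leftCoset_cover hcov
    have hpa : p.1 ≠ a := by
      have h1 := (Finset.mem_filter.1 hpS).1
      exact Finset.ne_of_mem_erase (Finset.mem_product.1 h1).1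
    -- the orbit of `p.1` under `H` is everything except `a`
    have hfinorb : (orbit H p.1).Finite := by
      have := (Set.finite_coe_iff (s := orbit H p.1)).1
      apply this
      have e := orbitEquivQuotientStabilizer H p.1
      haveI : Finite (H ⧸ stabilizer H p.1) := inferInstance
      exact Finite.of_equiv _ e.symm
    have horb : {x : X | x ≠ a} ⊆ orbit H p.1 := by
      intro x hx
      obtain ⟨k, hk1, hk2⟩ := ht (Ne.symm hpa) (Ne.symm hx)
      exact ⟨⟨k, hk1⟩, hk2⟩
    have h1 : ({x : X | x ≠ a} ∪ {a}).Finite := (hfinorb.subset horb).union (Set.finite_singleton a)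
    have h2 : ({x : X | x ≠ a} ∪ {a} : Set X) = Set.univ := by
      ext x
      simp only [Set.mem_union, Set.mem_ofPred_eq, Set.mem_singleton_iff, Set.mem_univ, iff_true]
      exact ne_or_eq x a
    rw [h2] at h1
    exact Set.infinite_univ h1
  obtain ⟨h, hha, hsep⟩ := hsep
  set k := h * g * h⁻¹ with hk
  have hka : k • a ≠ a := by
    rw [hk, mul_smul, mul_smul]
    have h1 : h⁻¹ • a = a := by rw [inv_smul_eq_iff, hha]
    rw [h1]
    intro h2
    apply ha
    have h3 : h • g • a = h • a := by rw [h2, hha]
    exact smul_left_cancel h h3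
  have hdis : ∀ x, g • x ≠ x → k • x ≠ x → x = a := by
    intro x hx1 hx2
    by_contra hxa
    have h1 : g • (h⁻¹ • x) ≠ h⁻¹ • x := by
      intro h1
      apply hx2
      rw [hk, mul_smul, mul_smul, h1, smul_inv_smul]
    have h2 : h⁻¹ • x ≠ a := by
      intro h2
      rw [inv_smul_eq_iff, hha] at h2
      exact hxa h2
    have h3 : h⁻¹ • x ∈ A := by
      simp only [A, Finset.mem_erase, Set.Finite.mem_toFinset, Set.mem_ofPred_eq]
      exact ⟨h2, h1⟩
    have h4 := hsep _ h3
    rw [smul_inv_smul] at h4
    apply h4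
    simp only [A, Finset.mem_erase, Set.Finite.mem_toFinset, Set.mem_ofPred_eq]
    exact ⟨hxa, hx1⟩
  obtain ⟨h1, h2, h3, h4⟩ := commutator_threeCycle ha hka hdis
  refine ⟨_, a, g • a, k • a, Ne.symm ha, ?_, Ne.symm hka, h1, h2, h3, h4⟩
  intro h5
  -- `g • a = k • a` would be a common moved point different from `a`
  have h6 : g • (g • a) ≠ g • a := fun h => ha (smul_left_cancel g h)
  have h7 : k • (g • a) ≠ g • a := by
    rw [h5]
    exact fun h => hka (smul_left_cancel k h)
  exact ha (hdis _ h6 h7)

lemma inj3 {u v w : X} (h1 : u ≠ v) (h2 : v ≠ w) (h3 : u ≠ w) :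
    Function.Injective (![u, v, w] : Fin 3 → X) := by
  have h1' := h1.symm
  have h2' := h2.symm
  have h3' := h3.symm
  intro i j hij
  fin_cases i <;> fin_cases j
  · rfl
  · exact absurd hij h1
  · exact absurd hij h3
  · exact absurd hij h1'
  · rfl
  · exact absurd hij h2
  · exact absurd hij h3'
  · exact absurd hij h2'
  · rfl

/-- a `3`-transitive action with a three-cycle is highly transitive -/
lemma highly_of_threeCycle [Infinite X] (ht : IsMultiplyPretransitive G X 3)
    (hc : ∃ (c : G) (u v w : X), u ≠ v ∧ v ≠ w ∧ u ≠ w ∧ c • u = v ∧ c • v = w ∧ c • w = u ∧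
      ∀ x, x ≠ u → x ≠ v → x ≠ w → c • x = x) (m : ℕ) : IsMultiplyPretransitive G X m := by
  classical
  obtain ⟨c, u, v, w, huv, hvw, huw, hcu, hcv, hcw, hcx⟩ := hc
  -- every three-cycle is available
  have h3 : ∀ u' v' w' : X, u' ≠ v' → v' ≠ w' → u' ≠ w' → ∃ d : G, d • u' = v' ∧
      ∀ x, x ≠ u' → x ≠ v' → x ≠ w' → d • x = x := by
    intro u' v' w' h1 h2 h3
    let e1 : Fin 3 ↪ X := ⟨![u', v', w'], inj3 h1 h2 h3⟩
    let e2 : Fin 3 ↪ X := ⟨![u, v, w], inj3 huv hvw huw⟩
    obtain ⟨k, hk⟩ := ht.exists_smul_eq e1 e2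
    have hk0 : k • u' = u := by simpa [e1, e2] using DFunLike.congr_fun hk 0
    have hk1 : k • v' = v := by simpa [e1, e2] using DFunLike.congr_fun hk 1
    have hk2 : k • w' = w := by simpa [e1, e2] using DFunLike.congr_fun hk 2
    refine ⟨k⁻¹ * c * k, ?_, ?_⟩
    · rw [mul_smul, mul_smul, hk0, hcu, inv_smul_eq_iff, hk1]
    · intro x hx1 hx2 hx3
      rw [mul_smul, mul_smul, hcx (k • x), inv_smul_smul]
      · rw [← hk0]; exact fun h => hx1 (smul_left_cancel k h)
      · rw [← hk1]; exact fun h => hx2 (smul_left_cancel k h)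
      · rw [← hk2]; exact fun h => hx3 (smul_left_cancel k h)
  induction m with
  | zero => exact is_zero_pretransitive'
  | succ m ih =>
    constructor
    intro x y
    let x' : Fin m ↪ X := (Fin.castSuccEmb).trans x
    let y' : Fin m ↪ X := (Fin.castSuccEmb).trans y
    obtain ⟨g, hg⟩ := ih.exists_smul_eq x' y'
    have hgi : ∀ i : Fin m, g • x i.castSucc = y i.castSucc := by
      intro i
      have h1 := DFunLike.congr_fun hg i
      simpa [x', y'] using h1
    by_cases hz : g • x (Fin.last m) = y (Fin.last m)
    · refine ⟨g, ?_⟩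
      ext i
      rw [Function.Embedding.smul_apply]
      rcases Fin.eq_castSucc_or_eq_last i with ⟨j, rfl⟩ | rfl
      · exact hgi j
      · exact hz
    · obtain ⟨t, ht'⟩ := Infinite.exists_notMem_finset
        (insert (g • x (Fin.last m)) (Finset.univ.image y))
      rw [Finset.mem_insert, not_or] at ht'
      obtain ⟨ht1, ht2⟩ := ht'
      have ht3 : ∀ i, y i ≠ t := by
        intro i hi
        exact ht2 (Finset.mem_image.2 ⟨i, Finset.mem_univ _, hi⟩)
      obtain ⟨d, hd1, hd2⟩ := h3 (g • x (Fin.last m)) (y (Fin.last m)) t hz (ht3 _) (Ne.symm ht1)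
      refine ⟨d * g, ?_⟩
      ext i
      rw [Function.Embedding.smul_apply, mul_smul]
      rcases Fin.eq_castSucc_or_eq_last i with ⟨j, rfl⟩ | rfl
      · rw [hgi j]
        apply hd2
        · rw [← hgi j]
          intro h
          have h1 := x.injective (smul_left_cancel g h)
          exact absurd h1 (Fin.castSucc_lt_last j).ne
        · exact fun h => absurd (y.injective h) (Fin.castSucc_lt_last j).ne
        · exact ht3 _
      · exact hd1

end ThreeCycle

/-- Main theorem: a group satisfying a mixed identity of length `n` which acts faithfully and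
`k`-transitively on an infinite set with `k ≥ n, 3` acts highly transitively. -/
theorem highly_transitive {G X : Type*} [Group G] [MulAction G X] [FaithfulSMul G X] [Infinite X]
    (a₀ : G) (L : List (Bool × G)) (hne : L ≠ []) (hred : Reduced L)
    (hid : ∀ x : G, a₀ * evalList L x = 1) (k : ℕ) (hk : L.length ≤ k) (hk3 : 3 ≤ k)
    (ht : IsMultiplyPretransitive G X k) (m : ℕ) : IsMultiplyPretransitive G X m := by
  have hcard : (k : ℕ∞) ≤ ENat.card X := by
    rw [ENat.card_eq_top_of_infinite]
    exact le_top
  have h1 : IsMultiplyPretransitive G X L.length := isMultiplyPretransitive_of_le' hk hcard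
  have h3 : IsMultiplyPretransitive G X 3 := isMultiplyPretransitive_of_le' hk3 hcard
  have h2 : IsMultiplyPretransitive G X 2 :=
    isMultiplyPretransitive_of_le' (by omega : 2 ≤ k) hcard
  obtain ⟨g, hg1, hg2⟩ := exists_finite_support (X := X) a₀ L hne hred hid h1
  obtain ⟨a, ha⟩ : ∃ a : X, g • a ≠ a := by
    by_contra hcon
    push Not at hcon
    apply hg1
    apply FaithfulSMul.eq_of_smul_eq_smul (α := X)
    intro x
    rw [hcon x, one_smul]
  exact highly_of_threeCycle h3 (exists_threeCycle h2 hg2 ha) m

end Pool.Agent.MixedId
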